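import Mathlib
import Pool.Agent.Q61.TP.F

/-!
# The two-phase outer Serrin problem: no contact at the threshold volume (MP_2fa8c7_an)

For `σc > 1` and a core `D` that is not a ball, Q2 assumes the conclusion of Q1 for `D` (for all
large volumes the outer problem has exactly one solution `Ω(V)`), and asks whether the threshold
`V*(D)` is greater than `|D|` and `dist (∂D, ∂Ω(V)) → 0` as `V ↓ V*(D)`.

The second assertion is false: for an explicit `σc > 1` and the annular core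
`D = {19/10 < |x| < 19/5}` in the plane the annulus `{1 < |x| < 4}` and the ball of the same area are
both solutions of the outer problem. Hence `V*(D) ≥ 15 π > π (19/5)^2`, for `V > V*(D)` the unique
solution is the ball of area `V` about the origin, and the distance of its boundary from `∂D` is
at least `1/20`.

The definitions `IsDomain`, `Solves`, `IsSolution` are in `Pool.Agent.Q61.TP.Def`.
-/

open MeasureTheory

namespace Pool.Agent.Results.MP_2fa8c7_an.ThresholdNotContact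

open Pool.Agent.Q61.TP

/-- `Ω` solves the outer problem for the core `D` and the volume `V`. -/
def IsOuterSolution {N : ℕ} (σc : ℝ) (D : Set (EuclideanSpace ℝ (Fin N))) (V : ℝ)
    (Ω : Set (EuclideanSpace ℝ (Fin N))) : Prop :=
  IsSolution σc D Ω ∧ volume Ω = ENNReal.ofReal V

/-- The numbers `V* ≥ |D|` such that for every `V > V*` the outer problem for `D` and `V` has exactly
one solution. The conclusion of Q1 for `D` is that this set is not empty. -/
def Thresholds {N : ℕ} (σc : ℝ) (D : Set (EuclideanSpace ℝ (Fin N))) : Set ℝ :=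
  {Vs | (volume D).toReal ≤ Vs ∧ ∀ V, Vs < V → ∃! Ω, IsOuterSolution σc D V Ω}

/-- The infimum `V*(D)` of these numbers. -/
noncomputable def Vstar {N : ℕ} (σc : ℝ) (D : Set (EuclideanSpace ℝ (Fin N))) : ℝ :=
  sInf (Thresholds σc D)

/-- **The answer to Q2 is negative.** There are `σc > 1` and a smooth bounded planar domain `D`, not
a ball, a volume `V₁ > |D|` for which the outer problem has two different solutions, and `δ > 0`, such
that for every `V ≥ V₁` there is a solution `Ω` of volume `V` with `dist (∂D, ∂Ω) ≥ δ`; and if the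
conclusion of Q1 holds for `D` then `V*(D) ≥ V₁`, and for every `V > V*(D)` the unique solution `Ω(V)`
of volume `V` has `dist (∂D, ∂Ω(V)) ≥ δ`. -/
theorem result : ∃ σc : ℝ, 1 < σc ∧ ∃ D : Set (EuclideanSpace ℝ (Fin 2)), IsDomain D ∧
    (∀ x r, D ≠ Metric.ball x r) ∧ ∃ V₁ δ : ℝ, (volume D).toReal < V₁ ∧ 0 < δ ∧
      (∃ Ω Ω', Ω ≠ Ω' ∧ IsOuterSolution σc D V₁ Ω ∧ IsOuterSolution σc D V₁ Ω') ∧
      (∀ V, V₁ ≤ V → ∃ Ω, IsOuterSolution σc D V Ω ∧
        ∀ x ∈ frontier D, ∀ y ∈ frontier Ω, δ ≤ dist x y) ∧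
      ((Thresholds σc D).Nonempty → V₁ ≤ Vstar σc D ∧
        ∀ V, Vstar σc D < V → ∀ Ω, IsOuterSolution σc D V Ω →
          ∀ x ∈ frontier D, ∀ y ∈ frontier Ω, δ ≤ dist x y) := by
  obtain ⟨L, hL⟩ : ∃ L, L = Real.log 2 := ⟨_, rfl⟩
  have hL1 : 0.6931 < L := by rw [hL]; linarith [Real.log_two_gt_d9]
  have hL2 : L < 0.6932 := by rw [hL]; linarith [Real.log_two_lt_d9]
  have hd1 : 0 < 2 * L - 417 / 400 := by linarith
  have hd2 : 0 < 1083 / 400 - 2 * L := by linarith
  obtain ⟨σ, hσ⟩ : ∃ σ, σ = (1083 / 400 - 2 * L) / (2 * L - 417 / 400) := ⟨_, rfl⟩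
  have hσ1 : 1 < σ := by
    rw [hσ, lt_div_iff₀ hd1]
    linarith
  have hσ0 : 0 < σ := by linarith
  have hlog4 : Real.log 4 = 2 * L := by
    rw [show (4:ℝ) = 2 ^ 2 by norm_num, Real.log_pow, hL]
    norm_num
  have hNt : Nontrivial (Sp 2) := inferInstance
  -- the two solutions
  have hann : IsSolution σ (ann 2 (19 / 10) (19 / 5)) (ann 2 1 4) := by
    refine isSolution_ann (K := 2) le_rfl hσ0.ne' one_pos (by norm_num) (by norm_num)
      (by norm_num) ?_ ?_
    · unfold q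
      norm_num
    · rw [prof_int 1 2 one_pos (by norm_num) (by norm_num) (by norm_num),
        gg_int 2 one_pos (by norm_num), gg_int 2 (by norm_num) (by norm_num)]
      rw [show (4:ℝ) / 1 = 4 by norm_num, show (19 / 5 : ℝ) / (19 / 10) = 2 by norm_num, hlog4,
        ← hL]
      have he : 1 / σ * (1083 / 400 - 2 * L) = 2 * L - 417 / 400 := by
        rw [hσ, one_div_div]
        exact div_mul_cancel₀ _ hd2.ne'
      linear_combination (-1) * he
  have hball : ∀ r : ℝ, 19 / 5 < r →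
      IsSolution σ (ann 2 (19 / 10) (19 / 5)) (Metric.ball (0 : Sp 2) r) := fun r hr =>
    isSolution_ball le_rfl hσ0.ne' (by norm_num) (by norm_num) hr
  -- volumes
  obtain ⟨p, hp⟩ : ∃ p, p = (volume (Metric.ball (0 : Sp 2) 1)).toReal := ⟨_, rfl⟩
  have hp0 : 0 < p := by
    rw [hp]
    exact ENNReal.toReal_pos vol_ball_pos.ne' vol_ball_lt_top
  have hpe : volume (Metric.ball (0 : Sp 2) 1) = ENNReal.ofReal p := by
    rw [hp, ENNReal.ofReal_toReal vol_ball_lt_top]
  have hvb : ∀ r : ℝ, 0 ≤ r → volume (Metric.ball (0 : Sp 2) r) = ENNReal.ofReal (r ^ 2 * p) := by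
    intro r hr
    rw [vol_ball two_ne_zero hr, hpe, ← ENNReal.ofReal_mul (by positivity)]
  have hva : ∀ a b : ℝ, 0 < a → a < b →
      volume (ann 2 a b) = ENNReal.ofReal ((b ^ 2 - a ^ 2) * p) := by
    intro a b ha hab
    rw [vol_ann two_ne_zero ha hab, hpe, ← ENNReal.ofReal_mul]
    nlinarith
  -- the ball of volume `V`
  have hbV : ∀ V : ℝ, 15 * p ≤ V → 77 / 20 < √(V / p) ∧
      IsOuterSolution σ (ann 2 (19 / 10) (19 / 5)) V (Metric.ball (0 : Sp 2) √(V / p)) := by
    intro V hV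
    have h0 : 0 ≤ V / p := div_nonneg (by nlinarith) hp0.le
    have h1 : 15 ≤ V / p := by rwa [le_div_iff₀ hp0]
    have h2 : 77 / 20 < √(V / p) := by
      rw [Real.lt_sqrt (by norm_num)]
      linarith
    refine ⟨h2, hball _ (by linarith), ?_⟩
    rw [hvb _ (Real.sqrt_nonneg _), Real.sq_sqrt h0, div_mul_cancel₀ _ hp0.ne']
  have hdist : ∀ r : ℝ, 77 / 20 < r → ∀ x ∈ frontier (ann 2 (19 / 10) (19 / 5)),
      ∀ y ∈ frontier (Metric.ball (0 : Sp 2) r), 1 / 20 ≤ dist x y := by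
    intro r hr x hx y hy
    rw [frontier_ball _ (by linarith), mem_sphere_zero_iff_norm] at hy
    have hx' : ‖x‖ ≤ 19 / 5 := by
      rcases frontier_ann hx with h | h <;> rw [h] <;> norm_num
    have h1 : ‖y‖ - ‖x‖ ≤ ‖y - x‖ := norm_sub_norm_le y x
    rw [dist_comm, dist_eq_norm]
    linarith
  have hne : ∀ r : ℝ, 0 < r → ann 2 1 4 ≠ Metric.ball (0 : Sp 2) r := by
    intro r hr h
    have h1 : (0 : Sp 2) ∈ ann 2 1 4 := by
      rw [h]
      exact Metric.mem_ball_self hr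
    have h2 : (1:ℝ) < ‖(0 : Sp 2)‖ := h1.1
    rw [norm_zero] at h2
    linarith
  refine ⟨σ, hσ1, ann 2 (19 / 10) (19 / 5), isDomain_ann le_rfl (by norm_num) (by norm_num), ?_,
    15 * p, 1 / 20, ?_, by norm_num, ?_, ?_, ?_⟩
  · intro x r h
    obtain ⟨e, he⟩ : ∃ e : Sp 2, ‖e‖ = 1 := exists_norm_eq (Sp 2) zero_le_one
    have hm : ∀ c : ℝ, |c| = 2 → c • e ∈ Metric.ball x r := by
      intro c hc
      rw [← h]
      show 19 / 10 < ‖c • e‖ ∧ ‖c • e‖ < 19 / 5
      rw [norm_smul, he, mul_one, Real.norm_eq_abs, hc]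
      norm_num
    have hcv : Convex ℝ (Metric.ball x r) := convex_ball x r
    have h0 := hcv (hm 2 (by norm_num)) (hm (-2) (by norm_num)) (a := 1 / 2) (b := 1 / 2)
      (by norm_num) (by norm_num) (by norm_num)
    have h1 : (1 / 2 : ℝ) • (2:ℝ) • e + (1 / 2 : ℝ) • (-2:ℝ) • e = 0 := by
      rw [smul_smul, smul_smul, ← add_smul]
      norm_num
    rw [h1, ← h] at h0
    have h2 : (19 / 10 : ℝ) < ‖(0 : Sp 2)‖ := h0.1
    rw [norm_zero] at h2
    linarith
  · rw [hva _ _ (by norm_num) (by norm_num), ENNReal.toReal_ofReal (by nlinarith)]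
    nlinarith
  · obtain ⟨h1, h2⟩ := hbV (15 * p) le_rfl
    refine ⟨ann 2 1 4, Metric.ball 0 √(15 * p / p), hne _ (by linarith), ⟨hann, ?_⟩, h2⟩
    rw [hva _ _ one_pos (by norm_num)]
    norm_num
  · intro V hV
    obtain ⟨h1, h2⟩ := hbV V hV
    exact ⟨_, h2, hdist _ h1⟩
  · intro hT
    have hlow : ∀ Vs ∈ Thresholds σ (ann 2 (19 / 10) (19 / 5)), 15 * p ≤ Vs := by
      intro Vs hVs
      by_contra hlt
      rw [not_le] at hlt
      obtain ⟨Ω, -, hΩ⟩ := hVs.2 _ hlt
      obtain ⟨h1, h2⟩ := hbV (15 * p) le_rfl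
      have e1 := hΩ _ h2
      have e2 := hΩ (ann 2 1 4) ⟨hann, by
        rw [hva _ _ one_pos (by norm_num)]
        norm_num⟩
      exact hne _ (by linarith) (e2.trans e1.symm)
    have hV : 15 * p ≤ Vstar σ (ann 2 (19 / 10) (19 / 5)) := le_csInf hT hlow
    refine ⟨hV, fun V hVV Ω hΩ => ?_⟩
    obtain ⟨Vs, hVs, hlt⟩ := exists_lt_of_csInf_lt hT hVV
    obtain ⟨h1, h2⟩ := hbV V (hV.trans hVV.le)
    obtain ⟨Ω', -, hu⟩ := hVs.2 V hlt
    have : Ω = Metric.ball 0 √(V / p) := (hu Ω hΩ).trans (hu _ h2).symm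
    rw [this]
    exact hdist _ h1

end Pool.Agent.Results.MP_2fa8c7_an.ThresholdNotContact
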